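import Pool.Agent.Lib_MP_e76747.Family
import Pool.Agent.Lib_MP_e76747.Eight
import Pool.Agent.Lib_MP_e76747.Four

/-!
# Sharpness of the repair bound for `r = 3`, `ℓ = 2` over every field with `2 ^ k ≥ 4` elements

The definitions `IsMDS`, `beta`, `gamma`, `betaAvg`, `bound` are in
`Pool.Agent.Lib_MP_e76747.Defs`.
-/

namespace Pool.Agent.Results.MP_e76747_lc.EvenFieldsThreeTwo

open Matrix Pool.Agent.Lib_MP_e76747

/-- For every finite field `F` with `q = 2 ^ k`, `k ≥ 2`, elements (so that `r - 1 = 2` does not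
divide `q - 1`), some `(n, n - 3, 2)` MDS array code over `F` has `β_avg = B(n,3,2,q)`; in fact
all its `β_i` and all its `γ_i` are equal to `B(n,3,2,q)`. -/
theorem result (F : Type*) [Field F] [Fintype F] (k : ℕ) (hk : 2 ≤ k)
    (hF : Fintype.card F = 2 ^ k) :
    ¬ ((3 - 1) ∣ (Fintype.card F - 1)) ∧
    ∃ n : ℕ, 3 < n ∧ ∃ H : Fin n → Matrix (Fin 3 × Fin 2) (Fin 2) F,
      IsMDS H ∧
      betaAvg H = bound n 3 2 (Fintype.card F) ∧
      ∀ i, (beta H i : ℚ) = bound n 3 2 (Fintype.card F) ∧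
        (gamma H i : ℚ) = bound n 3 2 (Fintype.card F) := by
  have h4 : 4 ∣ 2 ^ k := pow_dvd_pow 2 hk
  constructor
  · rw [hF]
    have hpos : 0 < 2 ^ k := by positivity
    norm_num
    omega
  · obtain h2 | h2 : k = 2 ∨ 3 ≤ k := by omega
    · subst h2
      exact Four.four hF
    obtain h3 | h3 : k = 3 ∨ 4 ≤ k := by omega
    · subst h3
      exact eight hF
    have h16 : 16 ≤ Fintype.card F := by
      rw [hF]
      calc 16 = 2 ^ 4 := by norm_num
        _ ≤ 2 ^ k := Nat.pow_le_pow_right (by norm_num) h3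
    have hchar : CharP F 2 := by
      obtain ⟨p, hp⟩ := CharP.exists F
      have hp' : p.Prime := CharP.char_is_prime F p
      obtain ⟨n, hn, hcard⟩ := FiniteField.card F p
      have hdvd : p ∣ 2 ^ k := by
        rw [← hF, hcard]
        exact dvd_pow_self p n.ne_zero
      have h5 : p ∣ 2 := hp'.dvd_of_dvd_pow hdvd
      have h6 : p = 2 := (Nat.prime_dvd_prime_iff_eq hp' Nat.prime_two).mp h5
      rwa [h6] at hp
    exact large h16

end Pool.Agent.Results.MP_e76747_lc.EvenFieldsThreeTwo
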