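import Pool.Agent.Lib_MP_e76747_rs.Code
import Pool.Agent.Lib_MP_e76747_rs.SharpCode

/-!
# Reed-Solomon codes with `ℓ = 2`: a larger lower bound, and its sharpness

The definitions `IsMDS`, `beta`, `betaAvg`, `bound` are in `Pool.Agent.Lib_MP_e76747.Defs`, the
block `rsBlock` of a Reed-Solomon code and `excess` are in `Pool.Agent.Lib_MP_e76747_rs.RSDefs`.
-/

namespace Pool.Agent.Results.MP_e76747_lc.ReedSolomonTwo

open Matrix Pool.Agent.Lib_MP_e76747 Pool.Agent.Lib_MP_e76747_rs

/-- Let `F` be a field with `q` elements, `L` its quadratic extension with basis `b`, `r ≥ 2`, and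
`H` the MDS array code over `F` with `ℓ = 2` given by the Reed-Solomon code over `L` with `r`
parity checks and evaluation points `(x j : z j)` (any distinct points of the projective line over
`L`, any change of basis `T j` at each node). Then every `β_i` is at least
`B(n,r,2,q) + ((q - 1) mod (r - 1))`, hence `B` is attained only if `r - 1` divides `q - 1`; and
for `r ≤ q + 1` every `β_i` is at least `B(n,r,2,q) + excess (r - 1) (q - 1)`. If `r ≤ q`, `r - 1`
divides `q`, or divides `q + 1` but not `q - 1`, and the evaluation points are all `q ^ 2 + 1`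
points, then all `β_i` are equal to `B(n,r,2,q) + excess (r - 1) (q - 1)`. -/
theorem result (F L : Type*) [Field F] [Fintype F] [Field L] [Fintype L] [Algebra F L]
    (b : Module.Basis (Fin 2) F L) {n r : ℕ} (hr : 2 ≤ r) (hn : r < n)
    (x z : Fin n → L) (hP : ∀ i j, i ≠ j → x i * z j ≠ x j * z i)
    (T : Fin n → Matrix (Fin 2) (Fin 2) F) (hT : ∀ j, IsUnit (T j))
    (H : Fin n → Matrix (Fin r × Fin 2) (Fin 2) F)
    (hH : ∀ j, H j = rsBlock b r (x j) (z j) * T j) :
    IsMDS H ∧
    (∀ i, bound n r 2 (Fintype.card F) + (((Fintype.card F - 1) % (r - 1) : ℕ) : ℚ)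
      ≤ (beta H i : ℚ)) ∧
    (betaAvg H = bound n r 2 (Fintype.card F) → (r - 1) ∣ (Fintype.card F - 1)) ∧
    (r ≤ Fintype.card F + 1 → ∀ i, bound n r 2 (Fintype.card F)
      + ((excess (r - 1) (Fintype.card F - 1) : ℕ) : ℚ) ≤ (beta H i : ℚ)) ∧
    (r ≤ Fintype.card F → n = Fintype.card F ^ 2 + 1 →
      ((r - 1) ∣ Fintype.card F ∨
        ((r - 1) ∣ Fintype.card F + 1 ∧ ¬ (r - 1) ∣ Fintype.card F - 1)) →
      ∀ i, (beta H i : ℚ) = bound n r 2 (Fintype.card F)
        + ((excess (r - 1) (Fintype.card F - 1) : ℕ) : ℚ)) := by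
  classical
  set q := Fintype.card F with hq
  have hq1 : 1 < q := Fintype.one_lt_card
  obtain ⟨d, rfl⟩ : ∃ d, r = d + 1 := ⟨r - 1, by omega⟩
  have hd : 1 ≤ d := by omega
  rw [Nat.add_sub_cancel]
  have hne : ∀ i : Fin n, ¬ (x i = 0 ∧ z i = 0) := by
    rintro i ⟨hx, hz⟩
    obtain ⟨j, hj⟩ : ∃ j : Fin n, i ≠ j := by
      by_cases h : i = ⟨0, by omega⟩
      · refine ⟨⟨1, by omega⟩, ?_⟩
        rw [h]
        simp
      · exact ⟨⟨0, by omega⟩, h⟩
    apply hP i j hj
    rw [hx, hz]; ring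
  have hbound : bound n (d + 1) 2 q = 2 * ((n : ℚ) - 1) - (d : ℚ) * ((q : ℚ) + 1) := by
    unfold bound
    have hq' : (q : ℚ) - 1 ≠ 0 := by
      have : (1 : ℚ) < q := by exact_mod_cast hq1
      linarith
    have e1 : ((q : ℚ) ^ 2 - 1) / ((q : ℚ) - 1) = (q : ℚ) + 1 := by
      rw [div_eq_iff hq']; ring
    rw [e1]
    push_cast
    ring
  have hn1 : ((n - 1 : ℕ) : ℚ) = (n : ℚ) - 1 := by
    rw [Nat.cast_sub (by omega)]
    simp
  have hlow : ∀ i, 2 * (n - 1) + (q - 1) % d ≤ beta H i + d * (q + 1) := by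
    intro i
    obtain ⟨M0, hM0⟩ := exists_repair b x z (r := d + 1) (by omega) i (hne i) T hT H hH
    have hmem : beta H i ∈ {b | ∃ M, IsRepair H i M ∧ BW H i M = b} :=
      Nat.sInf_mem ⟨_, M0, hM0, rfl⟩
    obtain ⟨M, hM, hMb⟩ := hmem
    rw [← hMb]
    exact rs_core hd b x z hP T hT H hH i (hne i) M hM
  have hlow' : ∀ i, bound n (d + 1) 2 q + (((q - 1) % d : ℕ) : ℚ) ≤ (beta H i : ℚ) := by
    intro i
    have h1 : (2 : ℚ) * ((n - 1 : ℕ) : ℚ) + (((q - 1) % d : ℕ) : ℚ)
        ≤ (beta H i : ℚ) + (d : ℚ) * ((q : ℚ) + 1) := by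
      exact_mod_cast hlow i
    rw [hn1] at h1
    rw [hbound]
    linarith
  have hex : d ≤ q → ∀ i, bound n (d + 1) 2 q + ((excess d (q - 1) : ℕ) : ℚ)
      ≤ (beta H i : ℚ) := by
    intro hdq i
    obtain ⟨M0, hM0⟩ := exists_repair b x z (r := d + 1) (by omega) i (hne i) T hT H hH
    have hmem : beta H i ∈ {b | ∃ M, IsRepair H i M ∧ BW H i M = b} :=
      Nat.sInf_mem ⟨_, M0, hM0, rfl⟩
    obtain ⟨M, hM, hMb⟩ := hmem
    have h0 := rs_core2 hd hdq b x z hP T hT H hH i (hne i) M hM
    rw [hMb] at h0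
    have h1 : (2 : ℚ) * ((n - 1 : ℕ) : ℚ) + ((excess d (q - 1) : ℕ) : ℚ)
        ≤ (beta H i : ℚ) + (d : ℚ) * ((q : ℚ) + 1) := by
      exact_mod_cast h0
    rw [hn1] at h1
    rw [hbound]
    linarith
  refine ⟨isMDS_rs b x z hP T hT H hH, hlow', ?_, ?_, ?_⟩
  · intro havg
    have hn0 : (0 : ℚ) < n := by
      have : 0 < n := by omega
      exact_mod_cast this
    unfold betaAvg at havg
    rw [div_eq_iff hn0.ne'] at havg
    have h1 : ∑ _i : Fin n, (bound n (d + 1) 2 q + (((q - 1) % d : ℕ) : ℚ))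
        ≤ ∑ i, (beta H i : ℚ) := Finset.sum_le_sum fun i _ => hlow' i
    rw [Finset.sum_const, Finset.card_univ, Fintype.card_fin, nsmul_eq_mul, havg] at h1
    have h2 : (n : ℚ) * (((q - 1) % d : ℕ) : ℚ) ≤ 0 := by linarith
    have h3 : (((q - 1) % d : ℕ) : ℚ) ≤ 0 := by
      by_contra h
      push Not at h
      have := mul_pos hn0 h
      linarith
    have h4 : (q - 1) % d = 0 := by
      have : (q - 1) % d ≤ 0 := by exact_mod_cast h3
      omega
    exact Nat.dvd_of_mod_eq_zero h4
  · intro hrq i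
    exact hex (by omega) i
  · intro hrq hnq hdiv i
    have hlo := hex (by omega) i
    apply le_antisymm _ hlo
    obtain ⟨w, hw, hw2⟩ : ∃ w, beta H i + w ≤ 2 * (n - 1) ∧
        w + excess d (q - 1) = d * (q + 1) := by
      rcases hdiv with hdiv | ⟨hdiv, hnd⟩
      · obtain ⟨M, hM, hBW⟩ := rs_sharp hd (by omega) hdiv b hnq x z hP T hT H hH i (hne i)
        rw [← hq] at hBW
        have hle : beta H i ≤ BW H i M := Nat.sInf_le ⟨M, hM, rfl⟩
        refine ⟨d * q + 1, by omega, ?_⟩
        have hmod : (q - 1) % d + 1 = d := by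
          obtain ⟨c, hc⟩ : d ∣ q := hdiv
          have hc0 : 0 < c := by
            rcases Nat.eq_zero_or_pos c with h | h
            · rw [h, mul_zero] at hc; omega
            · exact h
          obtain ⟨c', rfl⟩ : ∃ c', c = c' + 1 := ⟨c - 1, by omega⟩
          have e1 : q - 1 = d * c' + (d - 1) := by
            rw [hc]
            have : d * (c' + 1) = d * c' + d := by ring
            omega
          rw [e1, Nat.mul_add_mod, Nat.mod_eq_of_lt (by omega)]
          omega
        rw [excess_of_last hmod]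
        have : d * (q + 1) = d * q + d := by ring
        omega
      · obtain ⟨M, hM, hBW⟩ := rs_sharp2 hd (by omega) hdiv b hnq x z hP T hT H hH i (hne i)
        rw [← hq] at hBW
        have hle : beta H i ≤ BW H i M := Nat.sInf_le ⟨M, hM, rfl⟩
        refine ⟨d * (q - 1) + 2, by omega, ?_⟩
        have hd3 : 3 ≤ d := by
          by_contra hcon
          have h12 : d = 1 ∨ d = 2 := by omega
          rcases h12 with rfl | rfl
          · exact hnd (one_dvd _)
          · apply hnd
            omega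
        have hmod : (q - 1) % d = d - 2 := by
          obtain ⟨c, hc⟩ := hdiv
          have hc0 : 0 < c := by
            rcases Nat.eq_zero_or_pos c with h | h
            · rw [h, mul_zero] at hc; omega
            · exact h
          obtain ⟨c', rfl⟩ : ∃ c', c = c' + 1 := ⟨c - 1, by omega⟩
          have e1 : q - 1 = d * c' + (d - 2) := by
            have : d * (c' + 1) = d * c' + d := by ring
            omega
          rw [e1, Nat.mul_add_mod, Nat.mod_eq_of_lt (by omega)]
        rw [excess_of_mid (by omega) (by omega), hmod]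
        obtain ⟨d', rfl⟩ : ∃ d', d = d' + 3 := ⟨d - 3, by omega⟩
        obtain ⟨q', hq'⟩ : ∃ q', q = q' + 1 := ⟨q - 1, by omega⟩
        have e2 : d' + 3 - 2 = d' + 1 := by omega
        have e3 : d' + 3 - (d' + 1) = 2 := by omega
        rw [e2, e3, hq', Nat.add_sub_cancel]
        ring
    have h1 : (beta H i : ℚ) + (w : ℚ) ≤ 2 * ((n - 1 : ℕ) : ℚ) := by exact_mod_cast hw
    have h2 : (w : ℚ) + ((excess d (q - 1) : ℕ) : ℚ) = (d : ℚ) * ((q : ℚ) + 1) := by
      exact_mod_cast hw2
    rw [hn1] at h1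
    rw [hbound]
    linarith

end Pool.Agent.Results.MP_e76747_lc.ReedSolomonTwo
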